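import Pool.Agent.L0h73.TU.Tab

/-!
# `T(n, t+1, t) ≤ 1.921 / (t + 1) * C(n, t)` for large `t`

The determinant code over `F_q` with `t / q → 6.9`, with the bounds for `t(m+1, m)`, `m < 25`, of
the starting library (`Pool.Agent.TH485.Uni.tur_dn`) used for the sets of coloops, and the
recursion of `Pool.Agent.H242R2.Turan.T8` for the sets which the code does not cover.
-/

set_option autoImplicit false

namespace Pool.Agent.L0h73.TU.BelowTwoResult

/-- A family of `t`-element subsets of an `n`-element set is `k`-covering if every `k`-element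
subset contains a member of the family. -/
def IsCovering (n k t : ℕ) (F : Finset (Finset (Fin n))) : Prop :=
  (∀ Z ∈ F, Z.card = t) ∧ ∀ Y : Finset (Fin n), Y.card = k → ∃ Z ∈ F, Z ⊆ Y

/-- The Turán number: the least size of a `k`-covering family of `t`-subsets of an
`n`-element set. -/
noncomputable def T (n k t : ℕ) : ℕ :=
  sInf {m : ℕ | ∃ F : Finset (Finset (Fin n)), IsCovering n k t F ∧ F.card = m}

/-- For all sufficiently large `t` and all `n > t + 1`,
`T(n, t+1, t) ≤ 1.921 / (t + 1) * C(n, t)`. -/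
theorem below_two : ∃ t₀ : ℕ, ∀ t : ℕ, t₀ ≤ t → ∀ n : ℕ, t + 1 < n →
    (T n (t + 1) t : ℝ) ≤ 1.921 / (t + 1) * (n.choose t : ℝ) := by
  obtain ⟨R, hR⟩ := Pool.Agent.L0h73.TU.good_1921
  refine ⟨R, fun t ht n _ => ?_⟩
  obtain ⟨F, ⟨hF1, hF2⟩, hF3⟩ := hR t ht n
  have hT : T n (t + 1) t ≤ F.card := by
    apply Nat.sInf_le
    exact ⟨F, ⟨fun Z hZ => (hF1 Z hZ).2, fun Y hY => hF2 Y (Finset.subset_univ _) hY⟩, rfl⟩
  have hT' : (T n (t + 1) t : ℝ) ≤ F.card := by exact_mod_cast hT
  have ht1 : (0 : ℝ) < (t : ℝ) + 1 := by positivity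
  refine hT'.trans ?_
  rw [div_mul_eq_mul_div, le_div_iff₀ ht1]
  refine hF3.trans (le_of_eq ?_)
  norm_num

end Pool.Agent.L0h73.TU.BelowTwoResult
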