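import Pool.Agent.H123R2.Limit
import Pool.Agent.H242R2.Turan.T5
import Pool.Agent.H242R2.Turan.T6
import Pool.Agent.H242R2.Turan.T7
import Pool.Agent.H242R2.Turan.T8

/-!
The limit of the cost of the determinant codes for an arbitrary table of bounds, and the
resulting bound for `T(n, t+1, t)` for large `t`.
-/

set_option autoImplicit false

namespace Pool.Agent.L0h73.TU

open Finset Filter Topology Pool.Agent.H123R2 Pool.Agent.H242R2.Turan

/-- the limit cost for a table `t` which is constant, equal to `τ`, from `J` on -/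
noncomputable def CL (t : ℕ → ℝ) (J : ℕ) (τ l : ℝ) : ℝ :=
  l * (τ + Real.exp (-l) * ∑ j ∈ range J, (t j - τ) * l ^ j / (j.factorial : ℝ))

section
variable {t : ℕ → ℝ} {J : ℕ} {τ : ℝ}

theorem cost_le (ht0 : ∀ j, 0 ≤ t j - τ) (htJ : ∀ j, J ≤ j → t j = τ) {q k : ℕ} (hq : 2 ≤ q)
    (hk : J ≤ k) :
    cost q k t * (k + 1) ≤ ((k : ℝ) + 1) / ((q : ℝ) - 1) * (τ +
      Real.exp (-((k : ℝ) / q)) * ∑ j ∈ range J, (t j - τ) *
        ((k : ℝ) / ((q : ℝ) - 1)) ^ j / (j.factorial : ℝ)) + ((k : ℝ) + 1) / ((q : ℝ) ^ 2 - 1) := by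
  have hq' : (2 : ℝ) ≤ q := by exact_mod_cast hq
  have hq1 : (0 : ℝ) < (q : ℝ) - 1 := by linarith
  have hs : ∑ j ∈ range (k + 1), t j * (k.choose j : ℝ) * ((q : ℝ) - 1) ^ (k - j) / (q : ℝ) ^ k =
      τ + ∑ j ∈ range J, (t j - τ) *
        ((k.choose j : ℝ) * ((q : ℝ) - 1) ^ (k - j) / (q : ℝ) ^ k) := by
    have h1 : ∑ j ∈ range (k + 1), t j * (k.choose j : ℝ) * ((q : ℝ) - 1) ^ (k - j) / (q : ℝ) ^ k =
        τ * ∑ j ∈ range (k + 1), (k.choose j : ℝ) * ((q : ℝ) - 1) ^ (k - j) / (q : ℝ) ^ k +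
        ∑ j ∈ range (k + 1), (t j - τ) *
          ((k.choose j : ℝ) * ((q : ℝ) - 1) ^ (k - j) / (q : ℝ) ^ k) := by
      rw [Finset.mul_sum, ← Finset.sum_add_distrib]
      apply Finset.sum_congr rfl
      intro j _
      ring
    rw [h1, T7_sum_w (by linarith), mul_one]
    congr 1
    symm
    apply Finset.sum_subset
    · intro j hj
      rw [mem_range] at hj ⊢
      omega
    · intro j _ hj
      rw [mem_range] at hj
      rw [htJ j (by omega), sub_self, zero_mul]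
  have hb : ∑ j ∈ range J, (t j - τ) *
        ((k.choose j : ℝ) * ((q : ℝ) - 1) ^ (k - j) / (q : ℝ) ^ k) ≤
      Real.exp (-((k : ℝ) / q)) * ∑ j ∈ range J, (t j - τ) *
        ((k : ℝ) / ((q : ℝ) - 1)) ^ j / (j.factorial : ℝ) := by
    rw [Finset.mul_sum]
    apply Finset.sum_le_sum
    intro j hj
    rw [mem_range] at hj
    calc (t j - τ) * ((k.choose j : ℝ) * ((q : ℝ) - 1) ^ (k - j) / (q : ℝ) ^ k) ≤
        (t j - τ) * (((k : ℝ) / ((q : ℝ) - 1)) ^ j / (j.factorial : ℝ) *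
          Real.exp (-((k : ℝ) / q))) :=
          mul_le_mul_of_nonneg_left (T7_w_le (by linarith) (by omega)) (ht0 j)
      _ = _ := by ring
  unfold cost
  rw [hs]
  calc (1 / ((q : ℝ) - 1) * (τ + ∑ j ∈ range J, (t j - τ) *
        ((k.choose j : ℝ) * ((q : ℝ) - 1) ^ (k - j) / (q : ℝ) ^ k)) + 1 / ((q : ℝ) ^ 2 - 1)) *
        ((k : ℝ) + 1) = ((k : ℝ) + 1) / ((q : ℝ) - 1) * (τ +
        ∑ j ∈ range J, (t j - τ) *
        ((k.choose j : ℝ) * ((q : ℝ) - 1) ^ (k - j) / (q : ℝ) ^ k)) +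
        ((k : ℝ) + 1) / ((q : ℝ) ^ 2 - 1) := by ring
    _ ≤ _ := by
      gcongr

theorem limit_cost' (ht0 : ∀ j, 0 ≤ t j - τ) (htJ : ∀ j, J ≤ j → t j = τ) {l : ℝ} (hl : 0 < l)
    {Q : ℕ → ℕ} (hQ : ∀ᶠ k in Filter.atTop, (Q k).Prime)
    (hlim : Filter.Tendsto (fun k : ℕ => (k : ℝ) / (Q k : ℝ)) Filter.atTop (nhds l))
    {ε : ℝ} (hε : 0 < ε) : ∀ᶠ k in Filter.atTop, cost (Q k) k t * (k + 1) ≤ CL t J τ l + ε ∧
      fail (Q k) k ≤ Real.exp (-l) + ε := by
  have hinv : Tendsto (fun k : ℕ => 1 / (Q k : ℝ)) atTop (𝓝 0) := by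
    have h1 : Tendsto (fun k : ℕ => (k : ℝ) / (Q k : ℝ) * (1 / (k : ℝ))) atTop (𝓝 (l * 0)) :=
      hlim.mul tendsto_one_div_atTop_nhds_zero_nat
    rw [mul_zero] at h1
    refine h1.congr' ?_
    filter_upwards [eventually_gt_atTop 0] with k hk
    have : (k : ℝ) ≠ 0 := by exact_mod_cast hk.ne'
    field_simp
  have hone : Tendsto (fun k : ℕ => 1 - 1 / (Q k : ℝ)) atTop (𝓝 1) := by
    simpa using hinv.const_sub 1
  have hone2 : Tendsto (fun k : ℕ => 1 - (1 / (Q k : ℝ)) ^ 2) atTop (𝓝 1) := by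
    have := (hinv.pow 2).const_sub 1
    simpa using this
  have hA : Tendsto (fun k : ℕ => (k : ℝ) / ((Q k : ℝ) - 1)) atTop (𝓝 l) := by
    have h1 := hlim.div hone one_ne_zero
    rw [div_one] at h1
    refine h1.congr' ?_
    filter_upwards [hQ] with k hk
    have h2 : (2 : ℝ) ≤ Q k := by exact_mod_cast hk.two_le
    have h3 : (Q k : ℝ) - 1 ≠ 0 := by linarith
    have h4 : (Q k : ℝ) ≠ 0 := by linarith
    simp only [Pi.div_apply]
    rw [one_sub_div h4, div_div_div_cancel_right₀ h4]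
  have hB : Tendsto (fun k : ℕ => ((k : ℝ) + 1) / ((Q k : ℝ) - 1)) atTop (𝓝 l) := by
    have h1 := (hlim.add hinv).div hone one_ne_zero
    rw [add_zero, div_one] at h1
    refine h1.congr' ?_
    filter_upwards [hQ] with k hk
    have h2 : (2 : ℝ) ≤ Q k := by exact_mod_cast hk.two_le
    have h3 : (Q k : ℝ) - 1 ≠ 0 := by linarith
    have h4 : (Q k : ℝ) ≠ 0 := by linarith
    simp only [Pi.div_apply]
    rw [one_sub_div h4, ← add_div, div_div_div_cancel_right₀ h4]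
  have hC : Tendsto (fun k : ℕ => (Q k : ℝ) / ((Q k : ℝ) ^ 2 - 1)) atTop (𝓝 0) := by
    have h1 := hinv.div hone2 one_ne_zero
    rw [div_one] at h1
    refine h1.congr' ?_
    filter_upwards [hQ] with k hk
    have h2 : (2 : ℝ) ≤ Q k := by exact_mod_cast hk.two_le
    have h3 : (Q k : ℝ) ^ 2 - 1 ≠ 0 := by nlinarith
    have h4 : (Q k : ℝ) ≠ 0 := by linarith
    simp only [Pi.div_apply]
    have h5 : 1 - (1 / (Q k : ℝ)) ^ 2 ≠ 0 := by
      rw [one_div_pow, one_sub_div (by positivity)]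
      exact div_ne_zero h3 (by positivity)
    rw [div_eq_div_iff h5 h3]
    field_simp
  have hD : Tendsto (fun k : ℕ => ((k : ℝ) + 1) / ((Q k : ℝ) ^ 2 - 1)) atTop (𝓝 0) := by
    have h1 := (hlim.add hinv).mul hC
    rw [mul_zero] at h1
    refine h1.congr' ?_
    filter_upwards [hQ] with k hk
    have h2 : (2 : ℝ) ≤ Q k := by exact_mod_cast hk.two_le
    have h3 : (Q k : ℝ) ^ 2 - 1 ≠ 0 := by nlinarith
    have h4 : (Q k : ℝ) ≠ 0 := by linarith
    rw [← add_div, div_mul_div_comm, mul_comm (Q k : ℝ) ((Q k : ℝ) ^ 2 - 1),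
      mul_div_mul_right _ _ h4]
  have hE : Tendsto (fun k : ℕ => Real.exp (-((k : ℝ) / Q k))) atTop (𝓝 (Real.exp (-l))) :=
    (Real.continuous_exp.tendsto _).comp hlim.neg
  have hS : Tendsto (fun k : ℕ => ∑ j ∈ range J, (t j - τ) *
        ((k : ℝ) / ((Q k : ℝ) - 1)) ^ j / (j.factorial : ℝ)) atTop
      (𝓝 (∑ j ∈ range J, (t j - τ) * l ^ j / (j.factorial : ℝ))) := by
    apply tendsto_finset_sum
    intro j _
    exact ((hA.pow j).const_mul _).div_const _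
  have hF : Tendsto (fun k : ℕ => ((k : ℝ) + 1) / ((Q k : ℝ) - 1) * (τ +
      Real.exp (-((k : ℝ) / Q k)) * ∑ j ∈ range J, (t j - τ) *
        ((k : ℝ) / ((Q k : ℝ) - 1)) ^ j / (j.factorial : ℝ)) +
        ((k : ℝ) + 1) / ((Q k : ℝ) ^ 2 - 1)) atTop (𝓝 (CL t J τ l)) := by
    have := (hB.mul ((hE.mul hS).const_add τ)).add hD
    rw [add_zero] at this
    exact this
  have hG : Tendsto (fun k : ℕ => Real.exp (-((k : ℝ) / Q k)) +
      (Q k : ℝ) / ((Q k : ℝ) ^ 2 - 1)) atTop (𝓝 (Real.exp (-l))) := by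
    have := hE.add hC
    rwa [add_zero] at this
  filter_upwards [hQ, eventually_ge_atTop J,
    hF.eventually_le_const (show CL t J τ l < CL t J τ l + ε by linarith),
    hG.eventually_le_const (show Real.exp (-l) < Real.exp (-l) + ε by linarith)] with k h1 h2 h3 h4
  refine ⟨(cost_le ht0 htJ h1.two_le h2).trans h3, le_trans ?_ h4⟩
  unfold fail
  have h5 : (2 : ℝ) ≤ Q k := by exact_mod_cast h1.two_le
  have h6 : (1 - 1 / (Q k : ℝ)) ^ k ≤ Real.exp (-((k : ℝ) / Q k)) := by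
    have h4 : 1 - 1 / (Q k : ℝ) ≤ Real.exp (-(1 / (Q k : ℝ))) := by
      have := Real.add_one_le_exp (-(1 / (Q k : ℝ)))
      linarith
    have h7 : 0 ≤ 1 - 1 / (Q k : ℝ) := by
      rw [sub_nonneg, div_le_one (by linarith)]; linarith
    calc (1 - 1 / (Q k : ℝ)) ^ k ≤ Real.exp (-(1 / (Q k : ℝ))) ^ k := pow_le_pow_left₀ h7 h4 k
      _ = _ := by rw [← Real.exp_nat_mul]; congr 1; ring
  linarith

theorem eventually_PGood' (ht : ∀ j, Good j (t j * (j + 1))) (ht0 : ∀ j, 0 ≤ t j - τ)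
    (htJ : ∀ j, J ≤ j → t j = τ) {l : ℝ} (hl : 0 < l) {c p : ℝ} (hc : CL t J τ l < c)
    (hp : Real.exp (-l) < p) : ∀ᶠ k in Filter.atTop, PGood k c p := by
  obtain ⟨Q, hQ, hlim⟩ := exists_primes hl
  have hε : 0 < min (c - CL t J τ l) (p - Real.exp (-l)) := lt_min (by linarith) (by linarith)
  filter_upwards [limit_cost' ht0 htJ hl hQ hlim hε, hQ] with k hk hpr
  have : Fact (Q k).Prime := ⟨hpr⟩
  have h := pgood_of_prime (q := Q k) (k := k) (t := t) (fun j _ => ht j)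
  intro n α β hα hβ
  obtain ⟨F, hF1, hF2⟩ := h n α β hα hβ
  refine ⟨F, hF1, hF2.trans ?_⟩
  have hn1 : (0 : ℝ) ≤ (n.choose k : ℝ) := Nat.cast_nonneg _
  have hn2 : (0 : ℝ) ≤ (n.choose (k + 1) : ℝ) := Nat.cast_nonneg _
  have h1 : cost (Q k) k t * (k + 1) ≤ c := by
    have := min_le_left (c - CL t J τ l) (p - Real.exp (-l))
    linarith [hk.1]
  have h2 : fail (Q k) k ≤ p := by
    have := min_le_right (c - CL t J τ l) (p - Real.exp (-l))
    linarith [hk.2]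
  gcongr

/-- the bound for large `r` which a table gives -/
theorem good_large (ht : ∀ j, Good j (t j * (j + 1))) (ht0 : ∀ j, 0 ≤ t j - τ)
    (htJ : ∀ j, J ≤ j → t j = τ) {l c p a s : ℝ} (hl : 0 < l) (hc0 : 0 ≤ c)
    (hc : CL t J τ l < c) (hp : Real.exp (-l) < p) (ha0 : 0 < a) (ha1 : a < 1)
    (hpa : p < 1 - a) (hs : c / a / (1 - p / (1 - a)) < s) :
    ∃ R : ℕ, ∀ r ≥ R, Good r s := by
  have hp0 : 0 ≤ p := (Real.exp_pos _).le.trans hp.le
  have h1a : 0 < 1 - a := by linarith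
  have hρ : p / (1 - a) < 1 := by rw [div_lt_one h1a]; exact hpa
  have hPG := eventually_PGood' ht ht0 htJ hl hc hp
  -- choose a small `η`
  have hcont : Tendsto (fun η : ℝ => (c / a + η) / (1 - (p / (1 - a) + η)) + η) (𝓝[>] 0)
      (𝓝 ((c / a + 0) / (1 - (p / (1 - a) + 0)) + 0)) := by
    have h1 : ContinuousAt (fun η : ℝ => (c / a + η) / (1 - (p / (1 - a) + η)) + η) 0 := by
      apply ContinuousAt.add _ continuousAt_id
      apply ContinuousAt.div
      · exact continuousAt_const.add continuousAt_id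
      · exact continuousAt_const.sub (continuousAt_const.add continuousAt_id)
      · have : 0 < 1 - (p / (1 - a) + 0) := by linarith
        exact this.ne'
    exact h1.tendsto.mono_left nhdsWithin_le_nhds
  rw [add_zero, add_zero, add_zero] at hcont
  have hev := hcont.eventually_lt_const hs
  have hev2 : ∀ᶠ η : ℝ in 𝓝[>] 0, η < 1 - p / (1 - a) :=
    (eventually_nhdsWithin_of_eventually_nhds (eventually_lt_nhds (by linarith)))
  obtain ⟨η, ⟨hη1, hη2⟩, hη⟩ := ((hev.and hev2).and self_mem_nhdsWithin).exists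
  have hη0 : (0 : ℝ) < η := hη
  obtain ⟨γ, hγ, r₁, hrec⟩ := recursionP (c := c) (p := p) (a := a) hc0 hp0 ha0 ha1 hPG hη0
  obtain ⟨R, hR⟩ := iterate_recursion (C := c / a + η) (ρ := p / (1 - a) + η) (by positivity)
    (by positivity) (by linarith) hγ hrec hη0
  exact ⟨R, fun r hr => (hR r hr).mono hη1.le⟩

end

end Pool.Agent.L0h73.TU
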