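import Pool.Agent.L0h73.TU.Lim
import Pool.Agent.TH485.Uni.Main
import Pool.Agent.TH485.Tur.Conv

/-!
The table of bounds, and the numerical values.
-/

set_option autoImplicit false

namespace Pool.Agent.L0h73.TU

open Finset Pool.Agent.H123R2 Pool.Agent.H242R2.Turan Pool.Agent.TH485.Uni

/-- the table -/
noncomputable def TB (j : ℕ) : ℝ := if j < 25 then dn j else dn 24

theorem TB_tail {j : ℕ} (hj : 25 ≤ j) : TB j = dn 24 := by
  unfold TB
  rw [if_neg (by omega)]

theorem TB_nonneg (j : ℕ) : 0 ≤ TB j - dn 24 := by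
  unfold TB
  split_ifs with h
  · interval_cases j <;> norm_num [dn, g, cN]
  · simp

theorem good_TB (j : ℕ) : Good j (TB j * (j + 1)) := by
  by_cases hj : j < 25
  · unfold TB
    rw [if_pos hj]
    exact Pool.Agent.TH485.Tur.good_of_tur (tur_dn j)
  · obtain ⟨i, rfl⟩ := Nat.exists_eq_add_of_le (not_lt.1 hj)
    rw [TB_tail (by omega)]
    induction i with
    | zero =>
      have h := Good.succ (r := 24) (t := dn 24)
        (by exact_mod_cast Pool.Agent.TH485.Tur.good_of_tur (tur_dn 24))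
      exact_mod_cast h
    | succ i ih => exact_mod_cast Good.succ (r := 25 + i) (t := dn 24) (ih (by omega))

theorem exp_ge : (99227 / 100 : ℝ) ≤ Real.exp (69 / 10) := by
  have h1 : Real.exp (69 / 10) = Real.exp 1 ^ 7 * Real.exp (-(1 / 10)) := by
    rw [← Real.exp_nat_mul, ← Real.exp_add]; norm_num
  have h2 := Real.exp_one_gt_d9
  have h3 : (904837 / 1000000 : ℝ) ≤ Real.exp (-(1 / 10)) := by
    have h4 : Real.exp (1 / 10) ≤ 1105171 / 1000000 := by
      have h5 := Real.exp_bound' (x := 1 / 10) (by norm_num) (by norm_num) (n := 6) (by norm_num)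
      refine h5.trans ?_
      norm_num [Finset.sum_range_succ, Nat.factorial]
    rw [Real.exp_neg, inv_eq_one_div, le_div_iff₀ (Real.exp_pos _)]
    calc (904837 / 1000000 : ℝ) * Real.exp (1 / 10) ≤ 904837 / 1000000 * (1105171 / 1000000) := by
          gcongr
      _ ≤ 1 := by norm_num
  have h5 : (2.718281828 : ℝ) ^ 7 ≤ Real.exp 1 ^ 7 :=
    pow_le_pow_left₀ (by norm_num) (by linarith) 7
  rw [h1]
  calc (99227 / 100 : ℝ) ≤ (2.718281828 : ℝ) ^ 7 * (904837 / 1000000) := by norm_num
    _ ≤ _ := mul_le_mul h5 h3 (by norm_num) (by positivity)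

theorem exp_le' : Real.exp (-(69 / 10 : ℝ)) ≤ 100 / 99227 := by
  rw [Real.exp_neg, inv_eq_one_div, div_le_div_iff₀ (Real.exp_pos _) (by norm_num)]
  linarith [exp_ge]

theorem CL_le : CL TB 25 (dn 24) (69 / 10) < 18002 / 10000 := by
  have hs : ∑ j ∈ range 25, (TB j - dn 24) * (69 / 10 : ℝ) ^ j / (j.factorial : ℝ) ≤
      165665 / 1000 := by
    norm_num [Finset.sum_range_succ, Nat.factorial, TB, dn, g, cN]
  have hs0 : 0 ≤ ∑ j ∈ range 25, (TB j - dn 24) * (69 / 10 : ℝ) ^ j / (j.factorial : ℝ) := by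
    apply Finset.sum_nonneg
    intro j _
    have := TB_nonneg j
    positivity
  have h := mul_le_mul exp_le' hs hs0 (by norm_num)
  have ht : dn 24 = 234841 / 2500000 := by norm_num [dn, g, cN]
  unfold CL
  refine lt_of_le_of_lt (mul_le_mul_of_nonneg_left (add_le_add_right h _) (by norm_num)) ?_
  rw [ht]
  norm_num

/-- `T(n, r+1, r) ≤ 1.921 / (r+1) * C(n, r)` for large `r` -/
theorem good_1921 : ∃ R : ℕ, ∀ r ≥ R, Good r (1921 / 1000) :=
  good_large (t := TB) (J := 25) (τ := dn 24) (l := 69 / 10) (c := 18002 / 10000)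
    (p := 1008 / 1000000) (a := 968 / 1000) good_TB TB_nonneg (fun _ h => TB_tail h)
    (by norm_num) (by norm_num) CL_le (lt_of_le_of_lt exp_le' (by norm_num)) (by norm_num)
    (by norm_num) (by norm_num) (by norm_num)

end Pool.Agent.L0h73.TU
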